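import Pool.Agent.W47.KA.Defs

set_option autoImplicit false

/-!
# The inequality for a gap between two changed digits
-/

namespace Pool.Agent.W978.KA

open Finset Polynomial
open Pool.Agent.W472.AC Pool.Agent.W47.KA

lemma SP_mul_coeff (s : ℕ → ℤ) (b : ℕ) (hs : ∀ i, |s i| ≤ b) (v : ℕ) (q : ℤ[X]) (B : ℤ)
    (hB : 0 ≤ B) (hq : ∀ i, |q.coeff i| ≤ B) (i : ℕ) :
    |(SP s v * q).coeff i| ≤ ((v * b : ℕ) : ℤ) * B := by
  have h0 : (SP s v * q).coeff i = ∑ l ∈ Icc 1 v, (C (s l) * X ^ l * q).coeff i := by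
    unfold SP
    rw [Finset.sum_mul, finsetSum_coeff]
  have h1 : ∀ l ∈ Icc 1 v, |(C (s l) * X ^ l * q).coeff i| ≤ (b : ℤ) * B := by
    intro l _
    rw [mul_assoc, coeff_C_mul, coeff_X_pow_mul', abs_mul]
    refine mul_le_mul (hs l) ?_ (abs_nonneg _) (Int.natCast_nonneg _)
    split_ifs
    · exact hq _
    · rw [abs_zero]; exact hB
  rw [h0]
  refine (Finset.abs_sum_le_sum_abs _ _).trans ((Finset.sum_le_sum h1).trans (le_of_eq ?_))
  rw [Finset.sum_const, Nat.card_Icc, Nat.add_sub_cancel, nsmul_eq_mul]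
  push_cast
  ring

lemma SP_pow_coeff (s : ℕ → ℤ) (b : ℕ) (hs : ∀ i, |s i| ≤ b) (v j : ℕ) :
    ∀ i, |(SP s v ^ j).coeff i| ≤ ((v * b : ℕ) : ℤ) ^ j := by
  induction j with
  | zero =>
    intro i
    rw [pow_zero, pow_zero, coeff_one]
    split_ifs <;> simp
  | succ j ih =>
    intro i
    rw [pow_succ' (SP s v), pow_succ' ((v * b : ℕ) : ℤ)]
    exact SP_mul_coeff s b hs v _ _ (by positivity) ih i

lemma SP_pow_le (s : ℕ → ℤ) (b : ℕ) (hb : 1 ≤ b) (hs : ∀ i, |s i| ≤ b) (v L r j : ℕ) (hv : v ≤ L)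
    (hj : j ≤ r) (i : ℕ) : |(SP s v ^ j).coeff i| ≤ (((b * (L + 1)) ^ r : ℕ) : ℤ) := by
  refine (SP_pow_coeff s b hs v j i).trans ?_
  have h1 : v * b ≤ b * (L + 1) := by nlinarith
  have h2 : 1 ≤ b * (L + 1) := Nat.mul_pos (by omega) (by omega)
  have h3 : (v * b) ^ j ≤ (b * (L + 1)) ^ r :=
    (Nat.pow_le_pow_left h1 j).trans (Nat.pow_le_pow_right h2 hj)
  exact_mod_cast h3

lemma SP_split (s : ℕ → ℤ) (v L : ℕ) (hv : v ≤ L) : X ^ (v + 1) ∣ SP s L - SP s v := by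
  induction L, hv using Nat.le_induction with
  | base => rw [sub_self]; exact dvd_zero _
  | succ L hL ih =>
    have e : SP s (L + 1) = SP s L + C (s (L + 1)) * X ^ (L + 1) := by
      unfold SP
      rw [Finset.sum_Icc_succ_top (by omega)]
    have e2 : SP s (L + 1) - SP s v = (SP s L - SP s v) + C (s (L + 1)) * X ^ (L + 1) := by
      rw [e]; ring
    rw [e2]
    exact dvd_add ih (Dvd.dvd.mul_left (pow_dvd_pow X (by omega)) _)

lemma dvd_v (r : ℕ) (s : ℕ → ℤ) (t : Fin (r + 1) → ℤ[X]) (v L : ℕ) (hv : v ≤ L)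
    (h : X ^ (L + 1) ∣ ∑ j, t j * SP s L ^ (j : ℕ)) :
    X ^ (v + 1) ∣ ∑ j, t j * SP s v ^ (j : ℕ) := by
  have e : ∑ j, t j * SP s v ^ (j : ℕ) = ∑ j, t j * SP s L ^ (j : ℕ) -
      ∑ j, t j * (SP s L ^ (j : ℕ) - SP s v ^ (j : ℕ)) := by
    rw [← Finset.sum_sub_distrib]
    refine Finset.sum_congr rfl fun j _ => ?_
    ring
  rw [e]
  refine dvd_sub ((pow_dvd_pow X (by omega)).trans h) (Finset.dvd_sum fun j _ => ?_)
  exact Dvd.dvd.mul_left ((SP_split s v L hv).trans (sub_dvd_pow_sub_pow _ _ _)) _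

/-- the correction -/
noncomputable def RR (s : ℕ → ℤ) (b : ℕ) (x : ℝ) (u : ℕ) : ℤ :=
  ∑ i ∈ Icc 1 u, (s i - digit b x i) * (b : ℤ) ^ (u - i)

lemma RR_succ (s : ℕ → ℤ) (b : ℕ) (x : ℝ) (u : ℕ) :
    RR s b x (u + 1) = b * RR s b x u + (s (u + 1) - digit b x (u + 1)) := by
  unfold RR
  rw [Finset.sum_Icc_succ_top (by omega), Nat.sub_self, pow_zero, mul_one, Finset.mul_sum]
  congr 1
  refine Finset.sum_congr rfl fun i hi => ?_
  rw [mem_Icc] at hi
  have e : u + 1 - i = (u - i) + 1 := by omega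
  rw [e, pow_succ]
  ring

lemma RR_bound (s : ℕ → ℤ) (b : ℕ) (hb : 2 ≤ b) (hs : ∀ i, |s i| ≤ b) (x : ℝ) (u : ℕ) :
    |RR s b x u| ≤ 4 * (b : ℤ) ^ u - 4 := by
  induction u with
  | zero => simp [RR]
  | succ u ih =>
    rw [RR_succ]
    have hbZ : (2 : ℤ) ≤ b := by exact_mod_cast hb
    have h1 := digit_nonneg x b (by omega) (u + 1)
    have h2 := digit_le x b (by omega) (u + 1)
    have h3 := abs_le.1 (hs (u + 1))
    have h4 : |s (u + 1) - digit b x (u + 1)| ≤ 2 * b := by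
      rw [abs_le]; constructor <;> linarith [h3.1, h3.2]
    have h5 : |(b : ℤ) * RR s b x u| ≤ b * (4 * (b : ℤ) ^ u - 4) := by
      rw [abs_mul, abs_of_nonneg (by linarith : (0 : ℤ) ≤ b)]
      exact mul_le_mul_of_nonneg_left ih (by linarith)
    refine (abs_add_le _ _).trans ?_
    rw [pow_succ]
    nlinarith

lemma ev_SP (s : ℕ → ℤ) (b : ℕ) (hb : 2 ≤ b) (x : ℝ) (u v : ℕ) (huv : u ≤ v)
    (h : ∀ i, u < i → i ≤ v → s i = digit b x i) :
    ev (1 / b) (SP s v) = ev (1 / b) (DZ b x v) + RR s b x u * (1 / b) ^ u := by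
  have hb0 : (b : ℝ) ≠ 0 := by positivity
  unfold SP DZ RR
  rw [ev_sum, ev_sum]
  simp only [ev_C_mul_X_pow]
  push_cast
  rw [Finset.sum_mul]
  have e1 : ∑ i ∈ Icc 1 u, ((s i : ℝ) - (digit b x i : ℝ)) * (b : ℝ) ^ (u - i) * (1 / (b : ℝ)) ^ u =
      ∑ i ∈ Icc 1 u, ((s i : ℝ) - (digit b x i : ℝ)) * (1 / (b : ℝ)) ^ i := by
    refine Finset.sum_congr rfl fun i hi => ?_
    rw [mem_Icc] at hi
    have e : (1 / (b : ℝ)) ^ u = (1 / (b : ℝ)) ^ (u - i) * (1 / (b : ℝ)) ^ i := by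
      rw [← pow_add]; congr 1; omega
    rw [e, mul_assoc, ← mul_assoc ((b : ℝ) ^ (u - i)), ← mul_pow, mul_one_div_cancel hb0, one_pow,
      one_mul]
  have e2 : ∑ i ∈ Icc 1 u, ((s i : ℝ) - (digit b x i : ℝ)) * (1 / (b : ℝ)) ^ i =
      ∑ i ∈ Icc 1 v, ((s i : ℝ) - (digit b x i : ℝ)) * (1 / (b : ℝ)) ^ i := by
    apply Finset.sum_subset
    · intro i hi
      rw [mem_Icc] at hi ⊢
      omega
    · intro i hi hi'
      rw [mem_Icc] at hi hi'
      rw [h i (by omega) (by omega)]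
      ring
  rw [e1, e2, ← Finset.sum_add_distrib]
  refine Finset.sum_congr rfl fun i _ => ?_
  ring

lemma lin_pow_coeff (α β : ℤ) (j : ℕ) :
    ∀ i, |((C α * X + C β : ℤ[X]) ^ j).coeff i| ≤ (|α| + |β|) ^ j := by
  induction j with
  | zero =>
    intro i
    rw [pow_zero, pow_zero, coeff_one]
    split_ifs <;> simp
  | succ j ih =>
    intro i
    rw [pow_succ' (C α * X + C β : ℤ[X]), pow_succ' (|α| + |β|), add_mul, coeff_add, mul_assoc,
      coeff_C_mul, coeff_C_mul, add_mul]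
    refine (abs_add_le _ _).trans ?_
    rw [abs_mul, abs_mul]
    refine add_le_add (mul_le_mul_of_nonneg_left ?_ (abs_nonneg _))
      (mul_le_mul_of_nonneg_left (ih i) (abs_nonneg _))
    cases i with
    | zero => rw [coeff_X_mul_zero, abs_zero]; positivity
    | succ i => rw [coeff_X_mul]; exact ih i

lemma pow_sub_pow_le' (a b M : ℝ) (hM : 1 ≤ M) (ha : |a| ≤ M) (hb : |b| ≤ M) (j : ℕ) :
    |a ^ j - b ^ j| ≤ j * M ^ j * |a - b| := by
  induction j with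
  | zero => simp
  | succ j ih =>
    have e : a ^ (j + 1) - b ^ (j + 1) = a * (a ^ j - b ^ j) + (a - b) * b ^ j := by ring
    rw [e]
    refine (abs_add_le _ _).trans ?_
    rw [abs_mul, abs_mul, abs_pow]
    have hM0 : 0 ≤ M := by linarith
    have h0 := abs_nonneg (a - b)
    have h1 : |a| * |a ^ j - b ^ j| ≤ M * (j * M ^ j * |a - b|) :=
      mul_le_mul ha ih (abs_nonneg _) hM0
    have h2 : |a - b| * |b| ^ j ≤ |a - b| * M ^ j :=
      mul_le_mul_of_nonneg_left (pow_le_pow_left₀ (abs_nonneg _) hb j) h0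
    have h3 : M ^ j ≤ M ^ (j + 1) := pow_le_pow_right₀ hM (by omega)
    have h4 : |a - b| * M ^ j ≤ |a - b| * M ^ (j + 1) := mul_le_mul_of_nonneg_left h3 h0
    push_cast
    calc _ ≤ M * (j * M ^ j * |a - b|) + |a - b| * M ^ (j + 1) := by linarith
      _ = ((j : ℝ) + 1) * M ^ (j + 1) * |a - b| := by ring

/-- the polynomial of the shifted point -/
noncomputable def TP {r : ℕ} (a : Fin (r + 1) → ℤ) (b u : ℕ) (R : ℤ) : ℤ[X] :=
  ∑ j : Fin (r + 1), C (a j * (b : ℤ) ^ (u * (r - j))) *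
    (C ((b : ℤ) ^ u) * X + C R) ^ (j : ℕ)

lemma TP_comp {r : ℕ} (a : Fin (r + 1) → ℤ) (b u : ℕ) (R : ℤ) :
    TP a b u R = (pol (fun j : Fin (r + 1) => a j * (b : ℤ) ^ (u * (r - j)))).comp
      (C ((b : ℤ) ^ u) * X + C R) := by
  unfold TP pol
  rw [Polynomial.sum_comp]
  refine Finset.sum_congr rfl fun j _ => ?_
  rw [mul_comp, C_comp, pow_comp, X_comp]

lemma TP_ne {r : ℕ} (a : Fin (r + 1) → ℤ) (ha : a ≠ 0) (b u : ℕ) (hb : 1 ≤ b) (R : ℤ) :
    TP a b u R ≠ 0 := by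
  rw [TP_comp]
  have hb0 : (b : ℤ) ≠ 0 := by exact_mod_cast (by omega : b ≠ 0)
  have hd : (C ((b : ℤ) ^ u) * X + C R : ℤ[X]).natDegree = 1 := natDegree_linear (pow_ne_zero _ hb0)
  intro h
  rcases comp_eq_zero_iff.1 h with h1 | ⟨_, h2⟩
  · apply ha
    have h3 := pol_eq_zero _ h1
    funext j
    have h4 := congrFun h3 j
    simp only [Pi.zero_apply] at h4 ⊢
    exact (mul_eq_zero.1 h4).resolve_right (pow_ne_zero _ hb0)
  · rw [h2, natDegree_C] at hd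
    exact absurd hd (by norm_num)

lemma TP_deg {r : ℕ} (a : Fin (r + 1) → ℤ) (b u : ℕ) (hb : 1 ≤ b) (R : ℤ) :
    (TP a b u R).natDegree ≤ r := by
  rw [TP_comp, natDegree_comp]
  have hb0 : (b : ℤ) ≠ 0 := by exact_mod_cast (by omega : b ≠ 0)
  have hd : (C ((b : ℤ) ^ u) * X + C R : ℤ[X]).natDegree = 1 := natDegree_linear (pow_ne_zero _ hb0)
  rw [hd, mul_one]
  exact pol_natDegree _

lemma TP_coeff {r : ℕ} (a : Fin (r + 1) → ℤ) (A : ℤ) (hA : ∀ j, |a j| ≤ A) (b u : ℕ) (hb : 1 ≤ b)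
    (R : ℤ) (hR : |R| ≤ 4 * (b : ℤ) ^ u) (i : ℕ) :
    |(TP a b u R).coeff i| ≤ (r + 1) * (A * (5 ^ r * (b : ℤ) ^ (u * r))) := by
  have hA0 : 0 ≤ A := (abs_nonneg _).trans (hA 0)
  have hbZ : (0 : ℤ) < b := by exact_mod_cast hb
  have h1 : ∀ j : Fin (r + 1), |(C (a j * (b : ℤ) ^ (u * (r - j))) *
      (C ((b : ℤ) ^ u) * X + C R : ℤ[X]) ^ (j : ℕ)).coeff i| ≤ A * (5 ^ r * (b : ℤ) ^ (u * r)) := by
    intro j
    have hj : (j : ℕ) ≤ r := by omega
    rw [coeff_C_mul, abs_mul, abs_mul, mul_assoc]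
    refine mul_le_mul (hA j) ?_ (by positivity) hA0
    have h2 := lin_pow_coeff ((b : ℤ) ^ u) R j i
    have h3 : |(b : ℤ) ^ u| + |R| ≤ 5 * (b : ℤ) ^ u := by
      rw [abs_of_pos (by positivity : (0 : ℤ) < (b : ℤ) ^ u)]
      linarith
    have h4 : (|(b : ℤ) ^ u| + |R|) ^ (j : ℕ) ≤ (5 * (b : ℤ) ^ u) ^ (j : ℕ) :=
      pow_le_pow_left₀ (by positivity) h3 _
    have h5 : |(b : ℤ) ^ (u * (r - j))| = (b : ℤ) ^ (u * (r - j)) := abs_of_pos (by positivity)
    rw [h5]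
    have h6 : (b : ℤ) ^ (u * r) = (b : ℤ) ^ (u * (r - j)) * ((b : ℤ) ^ u) ^ (j : ℕ) := by
      rw [← pow_mul, ← pow_add]
      congr 1
      rw [← Nat.mul_add]
      congr 1
      omega
    calc (b : ℤ) ^ (u * (r - j)) * |((C ((b : ℤ) ^ u) * X + C R : ℤ[X]) ^ (j : ℕ)).coeff i|
        ≤ (b : ℤ) ^ (u * (r - j)) * (5 * (b : ℤ) ^ u) ^ (j : ℕ) :=
          mul_le_mul_of_nonneg_left (h2.trans h4) (by positivity)
      _ = 5 ^ (j : ℕ) * (b : ℤ) ^ (u * r) := by rw [h6, mul_pow]; ring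
      _ ≤ 5 ^ r * (b : ℤ) ^ (u * r) := by
          refine mul_le_mul_of_nonneg_right ?_ (by positivity)
          exact pow_le_pow_right₀ (by norm_num) hj
  unfold TP
  rw [finsetSum_coeff]
  refine (Finset.abs_sum_le_sum_abs _ _).trans ((Finset.sum_le_sum fun j _ => h1 j).trans
    (le_of_eq ?_))
  rw [Finset.sum_const, Finset.card_univ, Fintype.card_fin, nsmul_eq_mul]
  push_cast
  ring

lemma TP_eval {r : ℕ} (a : Fin (r + 1) → ℤ) (b u : ℕ) (hb : 1 ≤ b) (R : ℤ) (y : ℝ) :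
    ∑ j : Fin (r + 1), (((TP a b u R).coeff j : ℤ) : ℝ) * y ^ (j : ℕ) =
      (b : ℝ) ^ (u * r) * ∑ j : Fin (r + 1), (a j : ℝ) * (y + R * (1 / b) ^ u) ^ (j : ℕ) := by
  have hb0 : (b : ℝ) ≠ 0 := by
    have : (0 : ℝ) < b := by exact_mod_cast hb
    exact this.ne'
  have h1 : ∑ j : Fin (r + 1), (((TP a b u R).coeff j : ℤ) : ℝ) * y ^ (j : ℕ) =
      ev y (TP a b u R) := by
    rw [ev_eq y _ (r + 1) (by have := TP_deg a b u hb R; omega), Finset.sum_range]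
  rw [h1]
  unfold TP
  rw [ev_sum, Finset.mul_sum]
  refine Finset.sum_congr rfl fun j _ => ?_
  have hj : (j : ℕ) ≤ r := by omega
  have h2 : ev y (C (a j * (b : ℤ) ^ (u * (r - j))) *
      (C ((b : ℤ) ^ u) * X + C R : ℤ[X]) ^ (j : ℕ)) =
      (a j : ℝ) * (b : ℝ) ^ (u * (r - j)) * ((b : ℝ) ^ u * y + R) ^ (j : ℕ) := by
    unfold ev
    simp
  have h3 : (b : ℝ) ^ u * y + R = (b : ℝ) ^ u * (y + R * (1 / b) ^ u) := by
    have : (b : ℝ) ^ u * (1 / (b : ℝ)) ^ u = 1 := by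
      rw [← mul_pow, mul_one_div_cancel hb0, one_pow]
    linear_combination (-(R : ℝ)) * this
  have h4 : (b : ℝ) ^ (u * r) = (b : ℝ) ^ (u * (r - j)) * ((b : ℝ) ^ u) ^ (j : ℕ) := by
    rw [← pow_mul, ← pow_add]
    congr 1
    rw [← Nat.mul_add]
    congr 1
    omega
  rw [h2, h3, mul_pow, h4]
  ring

/-- the main inequality -/
theorem main_ineq2 (x : ℝ) (r : ℕ) (w c : ℝ) (hx : Meas (fun j : Fin (r + 1) => Int.fract x ^ (j : ℕ)) w c)
    (b L K H u v : ℕ) (s : ℕ → ℤ) (t : Fin (r + 1) → ℤ[X]) (hb : 2 ≤ b)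
    (hs : ∀ i, |s i| ≤ b) (hK : ∀ j, (t j).natDegree ≤ K) (hH1 : 1 ≤ H)
    (hH : ∀ j i, |(t j).coeff i| ≤ H)
    (hX : X ^ (L + 1) ∣ ∑ j, t j * SP s L ^ (j : ℕ))
    (hne : ∃ j, ∑ i ∈ range (K + 1), (t j).coeff i * (b : ℤ) ^ (K - i) ≠ 0)
    (huv : u ≤ v) (hvL : v ≤ L) (hd : ∀ i, u < i → i ≤ v → s i = digit b x i) :
    c ≤ (2 * (r + 1) * H * 5 ^ r * (b : ℝ) ^ (K + u * r)) ^ w *
      ((b : ℝ) ^ (K + u * r) * ((1 / b) ^ v * (2 * (r + 1) * H *
        ((K + 1) * ((b * (L + 1)) ^ r : ℕ) + r * 6 ^ r)))) := by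
  obtain ⟨j0, hj0⟩ := hne
  set B : ℕ := (b * (L + 1)) ^ r with hB
  have hbR : (2 : ℝ) ≤ b := by exact_mod_cast hb
  have hb0 : (0 : ℝ) < b := by linarith
  set z : ℝ := 1 / b with hz
  have hz0 : 0 < z := by positivity
  have hz1 : z ≤ 1 / 2 := by
    rw [hz]; exact one_div_le_one_div_of_le (by norm_num) hbR
  have hHR : (1 : ℝ) ≤ H := by exact_mod_cast hH1
  set a : Fin (r + 1) → ℤ := fun j => ∑ i ∈ range (K + 1), (t j).coeff i * (b : ℤ) ^ (K - i) with ha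
  have ha0 : a ≠ 0 := fun h0 => hj0 (congrFun h0 j0)
  have haev : ∀ j, (a j : ℝ) = (b : ℝ) ^ K * ev z (t j) := by
    intro j
    rw [ev_eq z (t j) (K + 1) (by have := hK j; omega), ha, Finset.mul_sum]
    push_cast
    refine Finset.sum_congr rfl fun i hi => ?_
    rw [mem_range] at hi
    have e : (b : ℝ) ^ K = (b : ℝ) ^ (K - i) * (b : ℝ) ^ i := by
      rw [← pow_add]; congr 1; omega
    rw [e, hz, div_pow, one_pow]
    field_simp
  have htev : ∀ j, |ev z (t j)| ≤ 2 * H := by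
    intro j
    refine ev_abs z hz0.le hz1 (t j) H (by positivity) fun i => ?_
    exact_mod_cast hH j i
  have haH : ∀ j, |(a j : ℝ)| ≤ 2 * H * (b : ℝ) ^ K := by
    intro j
    rw [haev, abs_mul, abs_of_pos (by positivity : (0 : ℝ) < (b : ℝ) ^ K), mul_comm]
    exact mul_le_mul_of_nonneg_right (htev j) (by positivity)
  have haZ : ∀ j, |a j| ≤ 2 * H * (b : ℤ) ^ K := by
    intro j
    exact_mod_cast haH j
  clear_value a
  set R := RR s b x u with hR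
  have hR1 : |R| ≤ 4 * (b : ℤ) ^ u := by
    have := RR_bound s b hb hs x u
    linarith
  have hRR : |(R : ℝ)| ≤ 4 * (b : ℝ) ^ u := by exact_mod_cast hR1
  set y := Int.fract x with hy
  have hy0 : 0 ≤ y := Int.fract_nonneg x
  have hy1 : y ≤ 1 := (Int.fract_lt_one x).le
  have hRz : |(R : ℝ) * z ^ u| ≤ 4 := by
    rw [abs_mul, abs_of_pos (by positivity : (0 : ℝ) < z ^ u)]
    calc |(R : ℝ)| * z ^ u ≤ 4 * (b : ℝ) ^ u * z ^ u :=
          mul_le_mul_of_nonneg_right hRR (by positivity)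
      _ = 4 := by
          rw [mul_assoc, ← mul_pow, hz, mul_one_div_cancel hb0.ne', one_pow, mul_one]
  obtain ⟨hc1, hc2⟩ := ev_DZ_close x b (by omega) v
  have hevS := ev_SP s b hb x u v huv hd
  rw [← hz] at hc1 hc2 hevS
  rw [← hy] at hc1 hc2
  rw [← hR] at hevS
  set ξ : ℝ := y + R * z ^ u with hξ
  set S : ℝ := ev z (SP s v) with hS
  have hzv1 : z ^ v ≤ 1 := pow_le_one₀ hz0.le (by linarith)
  have hξS : |ξ - S| ≤ z ^ v := by
    rw [hξ, hevS, abs_le]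
    constructor <;> linarith
  have hξ6 : |ξ| ≤ 6 := by
    rw [hξ]
    refine (abs_add_le _ _).trans ?_
    rw [abs_of_nonneg hy0]
    linarith
  have hS6 : |S| ≤ 6 := by
    have e : S = ξ - (ξ - S) := by ring
    rw [e]
    refine (abs_sub _ _).trans ?_
    have h1 : |ξ| ≤ 5 := by
      rw [hξ]
      refine (abs_add_le _ _).trans ?_
      rw [abs_of_nonneg hy0]
      linarith
    linarith
  -- the polynomial
  have hcf : ∀ i, |(((TP a b u R).coeff i : ℤ) : ℝ)| ≤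
      2 * (r + 1) * H * 5 ^ r * (b : ℝ) ^ (K + u * r) := by
    intro i
    have h1 := TP_coeff a (2 * H * (b : ℤ) ^ K) haZ b u (by omega) R hR1 i
    have h2 : |(((TP a b u R).coeff i : ℤ) : ℝ)| ≤
        ((r : ℝ) + 1) * ((2 * H * (b : ℝ) ^ K) * (5 ^ r * (b : ℝ) ^ (u * r))) := by
      exact_mod_cast h1
    refine h2.trans (le_of_eq ?_)
    rw [pow_add]
    ring
  have hne : (fun j : Fin (r + 1) => (TP a b u R).coeff j) ≠ 0 := by
    intro h
    apply TP_ne a ha0 b u (by omega) R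
    ext i
    by_cases hi : i < r + 1
    · have := congrFun h ⟨i, hi⟩
      simpa using this
    · rw [coeff_eq_zero_of_natDegree_lt, coeff_zero]
      have := TP_deg a b u (by omega) R
      omega
  have hb1 : ∀ n : ℕ, (1 : ℝ) ≤ (b : ℝ) ^ n := fun n => one_le_pow₀ (by linarith)
  have hbig : (1 : ℝ) ≤ 2 * (r + 1) * H * 5 ^ r * (b : ℝ) ^ (K + u * r) := by
    have h1 : (1 : ℝ) ≤ 2 * ((r : ℝ) + 1) := by
      have : (0 : ℝ) ≤ r := Nat.cast_nonneg r
      linarith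
    have h2 : (1 : ℝ) ≤ 5 ^ r := one_le_pow₀ (by norm_num)
    exact one_le_mul_of_one_le_of_one_le (one_le_mul_of_one_le_of_one_le
      (one_le_mul_of_one_le_of_one_le h1 hHR) h2) (hb1 _)
  have hmeas := hx _ hne _ hbig (fun j => hcf j)
  have hTe := TP_eval a b u (by omega) R y
  rw [← hz, ← hξ] at hTe
  have hmeas2 : c ≤ (2 * (r + 1) * H * 5 ^ r * (b : ℝ) ^ (K + u * r)) ^ w *
      |(b : ℝ) ^ (u * r) * ∑ j : Fin (r + 1), (a j : ℝ) * ξ ^ (j : ℕ)| := by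
    rw [← hTe]
    exact hmeas
  have hsum : |∑ j : Fin (r + 1), (a j : ℝ) * ξ ^ (j : ℕ)| ≤
      (b : ℝ) ^ K * (z ^ v * (2 * (r + 1) * H * ((K + 1) * (B : ℝ) + r * 6 ^ r))) := by
    have e1 : ∑ j : Fin (r + 1), (a j : ℝ) * ξ ^ (j : ℕ) =
        (b : ℝ) ^ K * (ev z (∑ j, t j * SP s v ^ (j : ℕ)) +
          ∑ j : Fin (r + 1), ev z (t j) * (ξ ^ (j : ℕ) - S ^ (j : ℕ))) := by
      have e2 : ∀ n : ℕ, ev z (SP s v ^ n) = S ^ n := by
        intro n
        rw [hS]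
        unfold ev
        rw [Polynomial.map_pow, eval_pow]
      rw [ev_sum]
      simp only [ev_mul, e2]
      rw [← Finset.sum_add_distrib, Finset.mul_sum]
      refine Finset.sum_congr rfl fun j _ => ?_
      rw [haev]
      ring
    have e2 : |ev z (∑ j, t j * SP s v ^ (j : ℕ))| ≤
        2 * ((r + 1) * (K + 1) * H * B) * z ^ (v + 1) := by
      refine ev_abs_dvd z hz0.le hz1 _ _ (by positivity) (fun i => ?_) (v + 1)
        (dvd_v r s t v L hvL hX)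
      have := coeff_sum_bound r K H B t (fun j => SP s v ^ (j : ℕ)) hK hH
        (fun j i => SP_pow_le s b (by omega) hs v L r j hvL (by omega) i) i
      exact_mod_cast this
    have e3 : |∑ j : Fin (r + 1), ev z (t j) * (ξ ^ (j : ℕ) - S ^ (j : ℕ))| ≤
        (r + 1) * (2 * H * (r * 6 ^ r * z ^ v)) := by
      calc |∑ j : Fin (r + 1), ev z (t j) * (ξ ^ (j : ℕ) - S ^ (j : ℕ))|
          ≤ ∑ j : Fin (r + 1), |ev z (t j) * (ξ ^ (j : ℕ) - S ^ (j : ℕ))| :=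
            Finset.abs_sum_le_sum_abs _ _
        _ ≤ ∑ _j : Fin (r + 1), 2 * H * (r * 6 ^ r * z ^ v) := by
            refine Finset.sum_le_sum fun j _ => ?_
            rw [abs_mul]
            refine mul_le_mul (htev j) ?_ (abs_nonneg _) (by positivity)
            have h1 := pow_sub_pow_le' ξ S 6 (by norm_num) hξ6 hS6 j
            have hj : ((j : ℕ) : ℝ) ≤ r := by
              have : (j : ℕ) ≤ r := by omega
              exact_mod_cast this
            have h2 : (6 : ℝ) ^ (j : ℕ) ≤ 6 ^ r := pow_le_pow_right₀ (by norm_num) (by omega)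
            have h3 : ((j : ℕ) : ℝ) * 6 ^ (j : ℕ) ≤ r * 6 ^ r :=
              mul_le_mul hj h2 (by positivity) (Nat.cast_nonneg _)
            refine h1.trans ?_
            exact mul_le_mul h3 hξS (abs_nonneg _) (by positivity)
        _ = (r + 1) * (2 * H * (r * 6 ^ r * z ^ v)) := by
            rw [Finset.sum_const, Finset.card_univ, Fintype.card_fin, nsmul_eq_mul]
            push_cast
            ring
    rw [e1, abs_mul, abs_of_pos (by positivity : (0 : ℝ) < (b : ℝ) ^ K)]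
    refine mul_le_mul_of_nonneg_left ?_ (by positivity)
    refine (abs_add_le _ _).trans ((add_le_add e2 e3).trans ?_)
    have e4 : z ^ (v + 1) ≤ z ^ v := by
      rw [pow_succ]
      have : 0 ≤ z ^ v := by positivity
      nlinarith
    have e5 : 2 * (((r : ℝ) + 1) * (K + 1) * H * B) * z ^ (v + 1) ≤
        2 * (((r : ℝ) + 1) * (K + 1) * H * B) * z ^ v :=
      mul_le_mul_of_nonneg_left e4 (by positivity)
    calc 2 * (((r : ℝ) + 1) * (K + 1) * H * B) * z ^ (v + 1) + (r + 1) * (2 * H * (r * 6 ^ r * z ^ v))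
        ≤ 2 * (((r : ℝ) + 1) * (K + 1) * H * B) * z ^ v + (r + 1) * (2 * H * (r * 6 ^ r * z ^ v)) := by
          linarith
      _ = z ^ v * (2 * (r + 1) * H * ((K + 1) * (B : ℝ) + r * 6 ^ r)) := by ring
  refine hmeas2.trans (mul_le_mul_of_nonneg_left ?_ (by positivity))
  rw [abs_mul, abs_of_pos (by positivity : (0 : ℝ) < (b : ℝ) ^ (u * r)), pow_add,
    mul_comm ((b : ℝ) ^ K) ((b : ℝ) ^ (u * r)), mul_assoc]
  exact mul_le_mul_of_nonneg_left hsum (by positivity)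

lemma log_ineq2 (r K L κ b u v : ℕ) (hb : 2 ≤ b) (w c : ℝ) (hw : 0 ≤ w) (hc : 0 < c) (hKL : K ≤ L)
    (H : ℕ) (hH : H = ((r + 1) * (K + 1) * (b * (L + 1)) ^ r) ^ κ)
    (h : c ≤ (2 * (r + 1) * H * 5 ^ r * (b : ℝ) ^ (K + u * r)) ^ w *
      ((b : ℝ) ^ (K + u * r) * ((1 / b) ^ v * (2 * (r + 1) * H *
        ((K + 1) * ((b * (L + 1)) ^ r : ℕ) + r * 6 ^ r))))) :
    v * Real.log b ≤ (w + 1) * ((K + u * r : ℕ) * Real.log b) +
      (w + 1) * (κ * (Real.log (r + 1) + (r + 1) * Real.log (L + 1) + r * Real.log b)) +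
      w * (Real.log 2 + Real.log (r + 1) + r * Real.log 5) + Real.log 2 + Real.log (r + 1) +
      ((r + 1) * Real.log (L + 1) + r * Real.log b + Real.log (1 + r * 6 ^ r)) + |Real.log c| := by
  have hbR : (2 : ℝ) ≤ b := by exact_mod_cast hb
  have hb0 : (0 : ℝ) < b := by linarith
  have hL0 : (0 : ℝ) < (L : ℝ) + 1 := by positivity
  have hm0 : (0 : ℝ) < (r : ℝ) + 1 := by positivity
  have hK0 : (0 : ℝ) < (K : ℝ) + 1 := by positivity
  have hH0 : 0 < H := by rw [hH]; positivity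
  have hHR : (0 : ℝ) < H := by exact_mod_cast hH0
  have hcast : (((b * (L + 1)) ^ r : ℕ) : ℝ) = ((b : ℝ) * ((L : ℝ) + 1)) ^ r := by push_cast; ring
  rw [hcast] at h
  have hbL : (0 : ℝ) < (b : ℝ) * ((L : ℝ) + 1) := by positivity
  have hbL1 : (1 : ℝ) ≤ (b : ℝ) * ((L : ℝ) + 1) := by
    have : (0 : ℝ) ≤ (L : ℝ) := Nat.cast_nonneg _
    nlinarith
  have hB1 : (1 : ℝ) ≤ ((b : ℝ) * ((L : ℝ) + 1)) ^ r := one_le_pow₀ hbL1
  obtain ⟨D, hD⟩ : ∃ D : ℝ, D = 1 + (r : ℝ) * 6 ^ r := ⟨_, rfl⟩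
  have hD0 : 0 < D := by rw [hD]; positivity
  have h0 : ((K : ℝ) + 1) * ((b : ℝ) * ((L : ℝ) + 1)) ^ r + r * 6 ^ r ≤
      ((K : ℝ) + 1) * ((b : ℝ) * ((L : ℝ) + 1)) ^ r * D := by
    have h1 : (1 : ℝ) ≤ ((K : ℝ) + 1) * ((b : ℝ) * ((L : ℝ) + 1)) ^ r := by
      have : (0 : ℝ) ≤ (K : ℝ) := Nat.cast_nonneg _
      exact one_le_mul_of_one_le_of_one_le (by linarith) hB1
    have h2 : (0 : ℝ) ≤ (r : ℝ) * 6 ^ r := by positivity
    rw [hD]
    nlinarith
  have h' : c ≤ (2 * (r + 1) * H * 5 ^ r * (b : ℝ) ^ (K + u * r)) ^ w *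
      ((b : ℝ) ^ (K + u * r) * ((1 / b) ^ v * (2 * (r + 1) * H *
        (((K : ℝ) + 1) * ((b : ℝ) * ((L : ℝ) + 1)) ^ r * D)))) := by
    refine h.trans ?_
    refine mul_le_mul_of_nonneg_left (mul_le_mul_of_nonneg_left (mul_le_mul_of_nonneg_left
      (mul_le_mul_of_nonneg_left h0 ?_) ?_) ?_) ?_ <;> positivity
  have h1 := Real.log_le_log hc h'
  rw [Real.log_mul (by positivity) (by positivity), Real.log_rpow (by positivity),
    Real.log_mul (by positivity) (by positivity), Real.log_mul (by positivity) (by positivity),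
    Real.log_mul (by positivity) (by positivity), Real.log_mul (by positivity) (by positivity),
    Real.log_mul (by positivity) (by positivity), Real.log_mul (by positivity) (by positivity),
    Real.log_mul (by positivity) (by positivity), Real.log_mul (by positivity) (by positivity),
    Real.log_mul (by positivity) (by positivity), Real.log_mul (by positivity) (by positivity),
    Real.log_pow, Real.log_pow, Real.log_pow, Real.log_mul (by positivity) (by positivity),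
    Real.log_pow, Real.log_mul hb0.ne' hL0.ne', Real.log_div (by norm_num) hb0.ne',
    Real.log_one] at h1
  have hlogKL : Real.log ((K : ℝ) + 1) ≤ Real.log ((L : ℝ) + 1) := by
    apply Real.log_le_log (by positivity)
    have : (K : ℝ) ≤ (L : ℝ) := by exact_mod_cast hKL
    linarith
  have hlogH : Real.log (H : ℝ) ≤ κ * (Real.log (r + 1) + (r + 1) * Real.log (L + 1) +
      r * Real.log b) := by
    rw [hH]
    push_cast
    rw [Real.log_pow, Real.log_mul (by positivity) (by positivity),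
      Real.log_mul (by positivity) (by positivity), Real.log_pow,
      Real.log_mul hb0.ne' hL0.ne']
    have hκ0 : (0 : ℝ) ≤ κ := Nat.cast_nonneg _
    refine mul_le_mul_of_nonneg_left ?_ hκ0
    linarith
  have hc1 : -|Real.log c| ≤ Real.log c := neg_abs_le _
  have hw1 : (1 + w) * Real.log (H : ℝ) ≤ (1 + w) * (κ * (Real.log (r + 1) +
      (r + 1) * Real.log (L + 1) + r * Real.log b)) := mul_le_mul_of_nonneg_left hlogH (by linarith)
  rw [← hD]
  linarith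

lemma absorb (w lb l κ C0 A1 A2 A3 V Z lc a : ℝ) (hw : 0 ≤ w) (hlb : 1 / 2 ≤ lb) (hl : 0 ≤ l)
    (hκ : 0 ≤ κ) (hC0 : 0 ≤ C0) (hA1 : 0 ≤ A1) (hA2 : 0 ≤ A2) (hA3 : 0 ≤ A3) (hlc : 0 ≤ lc)
    (h : V * lb ≤ (w + 1) * (Z * lb) + (w + 1) * (κ * (A1 + A2 * l + A3 * lb)) + C0 +
      (A2 * l + A3 * lb) + lc)
    (ha : a = (w + 1) * (2 * A1 + 2 * A2 + A3) + 2 * C0 + 2 * A2 + A3 + 2 * lc) :
    V ≤ (w + 1) * Z + a * (κ + 1) * (1 + l) := by
  have hlb0 : 0 < lb := by linarith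
  have g : ∀ Y : ℝ, 0 ≤ Y → Y ≤ 2 * Y * lb := by
    intro Y hY
    nlinarith
  have h1 : V ≤ (w + 1) * Z + (w + 1) * (κ * (2 * A1 + 2 * (A2 * l) + A3)) + 2 * C0 +
      (2 * (A2 * l) + A3) + 2 * lc := by
    have h2 : V * lb ≤ ((w + 1) * Z + (w + 1) * (κ * (2 * A1 + 2 * (A2 * l) + A3)) + 2 * C0 +
        (2 * (A2 * l) + A3) + 2 * lc) * lb := by
      have e1 := g ((w + 1) * (κ * A1)) (by positivity)
      have e2 := g ((w + 1) * (κ * (A2 * l))) (by positivity)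
      have e3 := g C0 hC0
      have e4 := g (A2 * l) (by positivity)
      have e5 := g lc hlc
      linarith
    exact le_of_mul_le_mul_right h2 hlb0
  obtain ⟨E, hE⟩ : ∃ E : ℝ, E = (κ + 1) * (1 + l) := ⟨_, rfl⟩
  have hE1 : 1 ≤ E := by rw [hE]; nlinarith
  have hE2 : κ ≤ E := by rw [hE]; nlinarith
  have hE3 : κ * l ≤ E := by rw [hE]; nlinarith
  have hE4 : l ≤ E := by rw [hE]; nlinarith [mul_nonneg hκ hl]
  have e : a * (κ + 1) * (1 + l) = a * E := by rw [hE]; ring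
  rw [e, ha]
  have f1 : (w + 1) * (κ * (2 * A1 + 2 * (A2 * l) + A3)) ≤
      (w + 1) * ((2 * A1 + 2 * A2 + A3) * E) := by
    refine mul_le_mul_of_nonneg_left ?_ (by linarith)
    have g1 := mul_le_mul_of_nonneg_left hE2 (by positivity : 0 ≤ 2 * A1)
    have g2 := mul_le_mul_of_nonneg_left hE3 (by positivity : 0 ≤ 2 * A2)
    have g3 := mul_le_mul_of_nonneg_left hE2 hA3
    linarith
  have f2 := mul_le_mul_of_nonneg_left hE1 (by positivity : 0 ≤ 2 * C0)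
  have f3 := mul_le_mul_of_nonneg_left hE4 (by positivity : 0 ≤ 2 * A2)
  have f4 := mul_le_mul_of_nonneg_left hE1 hA3
  have f5 := mul_le_mul_of_nonneg_left hE1 (by positivity : 0 ≤ 2 * lc)
  linarith

theorem ka2 : S_KA2 := by
  intro x r w c hw hc hx
  have hr1 : 0 ≤ Real.log ((r : ℝ) + 1) :=
    Real.log_nonneg (by linarith [(Nat.cast_nonneg r : (0 : ℝ) ≤ r)])
  have hl2 : 0 ≤ Real.log 2 := Real.log_nonneg (by norm_num)
  have hl5 : 0 ≤ Real.log 5 := Real.log_nonneg (by norm_num)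
  have hr0 : (0 : ℝ) ≤ r := Nat.cast_nonneg r
  have hD0 : 0 ≤ Real.log (1 + (r : ℝ) * 6 ^ r) := by
    apply Real.log_nonneg
    have : (0 : ℝ) ≤ (r : ℝ) * 6 ^ r := by positivity
    linarith
  obtain ⟨C0, hC0⟩ : ∃ C0 : ℝ, C0 = w * (Real.log 2 + Real.log (r + 1) + r * Real.log 5) +
    Real.log 2 + Real.log (r + 1) + Real.log (1 + (r : ℝ) * 6 ^ r) := ⟨_, rfl⟩
  have hC00 : 0 ≤ C0 := by rw [hC0]; positivity
  refine ⟨(w + 1) * (2 * Real.log (r + 1) + 2 * (r + 1) + r) + 2 * C0 + 2 * ((r : ℝ) + 1) + r +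
    2 * |Real.log c|, by positivity, ?_⟩
  intro b L K κ u v s t hb hs hKL hK hH hX hne huv hvL hd
  have hH1 : 1 ≤ ((r + 1) * (K + 1) * (b * (L + 1)) ^ r) ^ κ := Nat.one_le_pow _ _ (by positivity)
  have h1 := main_ineq2 x r w c hx b L K _ u v s t hb hs hK hH1 hH hX hne huv hvL hd
  have h2 := log_ineq2 r K L κ b u v hb w c hw hc hKL _ rfl h1
  have hbR : (2 : ℝ) ≤ b := by exact_mod_cast hb
  have hlb : 1 / 2 ≤ Real.log b := by
    have h1 := Real.log_le_log (by norm_num) hbR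
    have h2 := Real.log_two_gt_d9
    linarith
  have hl : 0 ≤ Real.log ((L : ℝ) + 1) :=
    Real.log_nonneg (by linarith [(Nat.cast_nonneg L : (0 : ℝ) ≤ L)])
  have h3 := absorb w (Real.log b) (Real.log (L + 1)) κ C0 (Real.log (r + 1)) (r + 1) r v
    ((K + u * r : ℕ) : ℝ) |Real.log c| _ hw hlb hl (Nat.cast_nonneg κ) hC00 hr1 (by positivity) hr0
    (abs_nonneg _) (by
      rw [hC0]
      linarith) rfl
  have e : ((K + u * r : ℕ) : ℝ) = r * u + K := by push_cast; ring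
  rw [e] at h3
  exact h3

end Pool.Agent.W978.KA
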